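import Mathlib

/-!
# Project PK (MP_129fce_an, MP_345ce5_an): peak sets for `A_α` versus zero sets for `G_α`

Definitions, and the statements of the pieces.
-/

namespace Pool.Agent.W728.PK

open Complex Metric Set Filter Topology MeasureTheory
open scoped Real ComplexConjugate

noncomputable section

/-- The class `A_α`: analytic in the open unit disc, continuous on the closed disc, and Lipschitz of
order `α` on the unit circle. -/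
def InA (α : ℝ) (f : ℂ → ℂ) : Prop :=
  DifferentiableOn ℂ f (ball (0 : ℂ) 1) ∧ ContinuousOn f (closedBall (0 : ℂ) 1) ∧
    ∃ C : ℝ, ∀ ζ₁ ∈ sphere (0 : ℂ) 1, ∀ ζ₂ ∈ sphere (0 : ℂ) 1, ‖f ζ₁ - f ζ₂‖ ≤ C * ‖ζ₁ - ζ₂‖ ^ α

/-- `E` is a peak set for `A_α`. -/
def IsPeakSet (α : ℝ) (E : Set ℂ) : Prop :=
  IsClosed E ∧ E ⊆ sphere (0 : ℂ) 1 ∧
    ∃ f : ℂ → ℂ, InA α f ∧ (∀ ζ ∈ E, f ζ = 1) ∧ ∀ ζ ∈ sphere (0 : ℂ) 1 \ E, ‖f ζ‖ < 1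

/-- The Gevrey class `G_α`. -/
def InGevrey (α : ℝ) (f : ℂ → ℂ) : Prop :=
  DifferentiableOn ℂ f (ball (0 : ℂ) 1) ∧
    ∃ C : ℝ, ∀ n : ℕ, ∀ z ∈ ball (0 : ℂ) 1,
      ‖iteratedDeriv n f z‖ ≤ C ^ (n + 1) * ((n.factorial : ℝ)) ^ (1 + 1 / α)

/-- `E` is a zero set for `G_α`: some `f ∈ G_α`, not identically zero, has `f⁽ⁿ⁾ = 0` on `E` for
every `n ≥ 0`, the value of `f⁽ⁿ⁾` at a point of the circle being its limit from inside the disc. -/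
def IsGevreyZeroSet (α : ℝ) (E : Set ℂ) : Prop :=
  E ⊆ sphere (0 : ℂ) 1 ∧
    ∃ f : ℂ → ℂ, InGevrey α f ∧ (∃ z ∈ ball (0 : ℂ) 1, f z ≠ 0) ∧
      ∀ n : ℕ, ∀ ζ ∈ E, Tendsto (iteratedDeriv n f) (𝓝[ball (0 : ℂ) 1] ζ) (𝓝 0)

/-! ### The kernel `Φ_d` -/

/-- `Φ_d(w) = d^{1-α} / (w^α (w+d)^{1-α})`. -/
def Phi (α d : ℝ) (w : ℂ) : ℂ :=
  ((d ^ (1 - α) : ℝ) : ℂ) / (w ^ ((α : ℝ) : ℂ) * (w + (d : ℂ)) ^ (((1 - α : ℝ)) : ℂ))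

/-- A family of points `p i` of the circle with radii `d i`, adapted to `α`. -/
structure Fam (α : ℝ) {ι : Type} (p : ι → ℂ) (d : ι → ℝ) : Prop where
  norm_one : ∀ i, ‖p i‖ = 1
  d_pos : ∀ i, 0 < d i
  d_le : ∀ i, 2 * d i ≤ ‖1 - p i‖
  sep : ∀ i k, i ≠ k → d i + d k ≤ ‖p i - p k‖
  rho : ∃ C : ℝ, 0 < C ∧ ∀ i, ‖1 - p i‖ ≤ C * d i ^ α ∧ d i ^ α ≤ C * ‖1 - p i‖
  summ : Summable (fun i => d i ^ (1 - α))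
  kernel : ∃ C : ℝ, 0 < C ∧ ∀ z : ℂ, ‖z‖ ≤ 1 → z ≠ 1 → ∀ s : Finset ι,
    (∀ i ∈ s, d i ≤ ‖z - p i‖) → ∑ i ∈ s, d i ^ (1 - α) / ‖z - p i‖ ≤ C / ‖1 - z‖

/-- The set attached to a family: the points `p i` and their limit point `1`. -/
def ES {ι : Type} (p : ι → ℂ) : Set ℂ := insert 1 (range p)

/-- `g(z) = M/(1-z) + ∑ Φ_{d_i}(1 - z \bar p_i)`. -/
def G (α M : ℝ) {ι : Type} (p : ι → ℂ) (d : ι → ℝ) (z : ℂ) : ℂ :=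
  (M : ℂ) / (1 - z) + ∑' i, Phi α (d i) (1 - z * conj (p i))

/-- The divergence condition. -/
def Div (α : ℝ) (E : Set ℂ) : Prop :=
  ∫⁻ θ in Ioc (0 : ℝ) (2 * π), ENNReal.ofReal (infDist (Complex.exp ((θ : ℂ) * I)) E ^ (-α)) = ⊤

/-! ### The explicit family -/

/-- `2^{-(j+1)}`. -/
def lev (j : ℕ) : ℝ := (1 / 2 : ℝ) ^ (j + 1)

/-- number of points of the block `j`: `⌈2^{(j+1)(1/α-1)} (j+1)^{-1/α}⌉`. -/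
def NN (α : ℝ) (j : ℕ) : ℕ :=
  ⌈(2 : ℝ) ^ (((j : ℝ) + 1) * (1 / α - 1)) * ((j : ℝ) + 1) ^ (-(1 / α))⌉₊

/-- index type of the family. -/
abbrev Idx (α : ℝ) : Type := Σ j : ℕ, Fin (NN α j)

/-- the angle `2^{-(j+1)} (1 + i/(2 N_j))`. -/
def th (α : ℝ) (x : Idx α) : ℝ := lev x.1 * (1 + ((x.2 : ℕ) : ℝ) / (2 * (NN α x.1 : ℝ)))

/-- the point `exp(i θ)`. -/
def pp (α : ℝ) (x : Idx α) : ℂ := Complex.exp ((th α x : ℂ) * I)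

/-- the radius `2^{-(j+1)/α} / 64`. -/
def dd (α : ℝ) (x : Idx α) : ℝ := lev x.1 ^ (1 / α) / 64

end

end Pool.Agent.W728.PK
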