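import Pool.Agent.W728.PK.Peak

/-!
# Project PK: assembly from the pieces
-/

namespace Pool.Agent.W728.PK

open Complex Metric Set Filter Topology MeasureTheory
open scoped Real ComplexConjugate

theorem fam (hB : EXB_stmt) (hK : EXK_stmt) {α : ℝ} (h0 : 0 < α) (h1 : α < 1) :
    Fam α (pp α) (dd α) := by
  obtain ⟨a, b, c, d, e⟩ := hB α h0 h1
  obtain ⟨f, g⟩ := hK α h0 h1
  exact ⟨a, b, c, d, e, f, g⟩

/-- a set with `Div α E` is not a zero set for `G_α`. -/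
theorem not_gevrey (hA1 : A1_stmt) (hA2 : A2_stmt) (hF : FAT_stmt) {α : ℝ} (h0 : 0 < α)
    {E : Set ℂ} (hne : E.Nonempty) (hdiv : Div α E) : ¬ IsGevreyZeroSet α E := by
  rintro ⟨hEs, f, ⟨hfd, C, hC⟩, hf0, hlim⟩
  have h1 : ∀ ζ ∈ E, ∀ n : ℕ, ∀ z ∈ ball (0 : ℂ) 1,
      ‖f z‖ ≤ C ^ (n + 1) * ((n.factorial : ℝ)) ^ (1 / α) * ‖z - ζ‖ ^ n := by
    intro ζ hζ n z hz
    exact hA1 α h0 f C hfd hC ζ (hEs hζ) (fun m => hlim m ζ hζ) n z hz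
  obtain ⟨A, hA, c, hc, hbd⟩ := hA2 α h0 E hEs hne f C h1
  exact hF α h0 E hEs hdiv f hfd hf0 A c hA hc hbd

theorem countable_ES (α : ℝ) : (ES (pp α)).Countable :=
  (countable_range (pp α)).insert 1

theorem main (hP : PEAK_stmt) (hB : EXB_stmt) (hK : EXK_stmt) (hD : EXD_stmt) (hO : ONE_stmt)
    (hA1 : A1_stmt) (hA2 : A2_stmt) (hF : FAT_stmt) :
    ∀ α : ℝ, 0 < α → α ≤ 1 →
      ∃ E : Set ℂ, E.Countable ∧ IsPeakSet α E ∧ ¬ IsGevreyZeroSet α E := by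
  intro α h0 h1
  rcases h1.lt_or_eq with h1 | rfl
  · refine ⟨ES (pp α), countable_ES α, hP α h0 h1 _ _ _ (fam hB hK h0 h1), ?_⟩
    exact not_gevrey hA1 hA2 hF h0 ⟨1, mem_insert _ _⟩ (hD α h0 h1)
  · refine ⟨{1}, countable_singleton _, hO.1, ?_⟩
    exact not_gevrey hA1 hA2 hF h0 ⟨1, rfl⟩ hO.2

end Pool.Agent.W728.PK
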