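import Pool.Agent.W728.PK.Stms

/-!
# Project PK: a family gives a peak set
-/

namespace Pool.Agent.W728.PK

open Complex Metric Set Filter Topology MeasureTheory
open scoped Real ComplexConjugate

theorem norm_one_sub_inv_lt {g : ℂ} (hg : 1 / 2 < g.re) : ‖1 - g⁻¹‖ < 1 := by
  have hne : g ≠ 0 := by
    rintro rfl
    norm_num at hg
  have h1 : 1 - g⁻¹ = (g - 1) / g := by
    field_simp
  have hpos : 0 < ‖g‖ := norm_pos_iff.2 hne
  rw [h1, norm_div, div_lt_one hpos]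
  refine lt_of_pow_lt_pow_left₀ 2 (norm_nonneg _) ?_
  rw [← Complex.normSq_eq_norm_sq, ← Complex.normSq_eq_norm_sq, Complex.normSq_apply,
    Complex.normSq_apply]
  simp only [Complex.sub_re, Complex.sub_im, Complex.one_re, Complex.one_im]
  nlinarith

theorem rpow_aux1 {α h : ℝ} (h0 : 0 < α) (h1 : α < 1) (hh : 0 < h) (h2 : h ≤ 2) :
    h ≤ 2 * h ^ α := by
  have e : h = h ^ α * h ^ (1 - α) := by
    rw [← Real.rpow_add hh]; norm_num
  have h3 : h ^ (1 - α) ≤ 2 := by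
    calc h ^ (1 - α) ≤ (2 : ℝ) ^ (1 - α) := Real.rpow_le_rpow hh.le h2 (by linarith)
      _ ≤ (2 : ℝ) ^ (1 : ℝ) := Real.rpow_le_rpow_of_exponent_le (by norm_num) (by linarith)
      _ = 2 := by norm_num
  calc h = h ^ α * h ^ (1 - α) := e
    _ ≤ h ^ α * 2 := mul_le_mul_of_nonneg_left h3 (Real.rpow_nonneg hh.le _)
    _ = 2 * h ^ α := by ring

theorem rpow_aux2 {α h δ : ℝ} (h1 : α < 1) (hh : 0 < h) (h2 : h ≤ δ) :
    h * δ ^ (α - 1) ≤ h ^ α := by
  have hδ : 0 < δ := lt_of_lt_of_le hh h2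
  have e : h = h ^ α * h ^ (1 - α) := by
    rw [← Real.rpow_add hh]; norm_num
  have h3 : h ^ (1 - α) * δ ^ (α - 1) ≤ 1 := by
    calc h ^ (1 - α) * δ ^ (α - 1) ≤ δ ^ (1 - α) * δ ^ (α - 1) :=
          mul_le_mul_of_nonneg_right (Real.rpow_le_rpow hh.le h2 (by linarith))
            (Real.rpow_nonneg hδ.le _)
      _ = 1 := by rw [← Real.rpow_add hδ]; norm_num
  calc h * δ ^ (α - 1) = h ^ α * (h ^ (1 - α) * δ ^ (α - 1)) := by
        rw [← mul_assoc, ← e]
    _ ≤ h ^ α * 1 := mul_le_mul_of_nonneg_left h3 (Real.rpow_nonneg hh.le _)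
    _ = h ^ α := mul_one _

theorem rpow_aux3 {α k : ℝ} (h0 : 0 < α) (h1 : α < 1) (hk : 1 ≤ k) {x : ℝ} (hx : 0 ≤ x) :
    (k * x) ^ α ≤ k * x ^ α := by
  rw [Real.mul_rpow (by linarith) hx]
  refine mul_le_mul_of_nonneg_right ?_ (Real.rpow_nonneg hx _)
  calc k ^ α ≤ k ^ (1 : ℝ) := Real.rpow_le_rpow_of_exponent_le hk h1.le
    _ = k := Real.rpow_one _

open Classical in
theorem peak (hLB : LB_stmt) (hD : DIFF_stmt) (hAN : AN_stmt) (hCL : CL_stmt) : PEAK_stmt := by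
  intro α h0 h1 ι p d hF
  obtain ⟨M, hM, c, hc, hG⟩ := hLB α h0 h1 ι p d hF
  obtain ⟨C, hC, hDf⟩ := hD α h0 h1 ι p d hF M (by linarith)
  have hAn := hAN α h0 h1 ι p d hF M
  have hcl := hCL α h0 h1 ι p d hF
  set E := ES p with hE
  have hEne : E.Nonempty := ⟨1, mem_insert _ _⟩
  have h1E : (1 : ℂ) ∈ E := mem_insert _ _
  have hEs : E ⊆ sphere (0 : ℂ) 1 := by
    intro z hz
    rw [mem_sphere_zero_iff_norm]
    rcases hz with rfl | ⟨i, rfl⟩
    · simp
    · exact hF.norm_one i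
  set u : ℂ → ℂ := fun z => if z ∈ E then 0 else (G α M p d z)⁻¹ with hu
  have uE : ∀ z ∈ E, u z = 0 := fun z hz => by simp [hu, hz]
  have unE : ∀ z, z ∉ E → u z = (G α M p d z)⁻¹ := fun z hz => by simp [hu, hz]
  have dpos : ∀ z, z ∉ E → 0 < infDist z E := fun z hz =>
    (hcl.notMem_iff_infDist_pos hEne).1 hz
  -- bounds for `u`
  have U1 : ∀ z : ℂ, ‖z‖ ≤ 1 → ‖u z‖ ≤ c⁻¹ * infDist z E ^ α := by
    intro z hz
    by_cases hzE : z ∈ E
    · rw [uE z hzE, norm_zero]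
      exact mul_nonneg (inv_nonneg.2 hc.le) (Real.rpow_nonneg infDist_nonneg _)
    · rw [unE z hzE, norm_inv]
      have h := (hG z hz hzE).2.2
      have hp := dpos z hzE
      have h' : 0 < c * infDist z E ^ (-α) := mul_pos hc (Real.rpow_pos_of_pos hp _)
      calc ‖G α M p d z‖⁻¹ ≤ (c * infDist z E ^ (-α))⁻¹ := inv_anti₀ h' h
        _ = c⁻¹ * infDist z E ^ α := by
            rw [mul_inv, Real.rpow_neg hp.le, inv_inv]
  have U2 : ∀ z : ℂ, ‖z‖ ≤ 1 → ‖u z‖ ≤ c⁻¹ * ‖1 - z‖ := by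
    intro z hz
    by_cases hzE : z ∈ E
    · rw [uE z hzE, norm_zero]
      exact mul_nonneg (inv_nonneg.2 hc.le) (norm_nonneg _)
    · rw [unE z hzE, norm_inv]
      have h := (hG z hz hzE).2.1
      have hne : 0 < ‖1 - z‖ := by
        rw [norm_pos_iff, sub_ne_zero]
        rintro rfl
        exact hzE h1E
      have h' : 0 < c / ‖1 - z‖ := div_pos hc hne
      calc ‖G α M p d z‖⁻¹ ≤ (c / ‖1 - z‖)⁻¹ := inv_anti₀ h' h
        _ = c⁻¹ * ‖1 - z‖ := by rw [inv_div, div_eq_inv_mul]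
  -- Hölder estimate
  set K : ℝ := 5 * c⁻¹ + C * (c⁻¹ * c⁻¹) * 8 with hK
  have hKpos : 0 < K := by positivity
  have hH : ∀ z w : ℂ, ‖z‖ ≤ 1 → ‖w‖ ≤ 1 → ‖u z - u w‖ ≤ K * ‖z - w‖ ^ α := by
    intro z w hz hw
    rcases eq_or_ne z w with rfl | hne
    · simp only [sub_self, norm_zero]
      exact mul_nonneg hKpos.le (Real.rpow_nonneg le_rfl _)
    have hh : 0 < ‖z - w‖ := norm_pos_iff.2 (sub_ne_zero.2 hne)
    set h := ‖z - w‖ with hhd
    have hh2 : h ≤ 2 := by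
      calc h ≤ ‖z‖ + ‖w‖ := norm_sub_le _ _
        _ ≤ 2 := by linarith
    have hci : 0 < c⁻¹ := inv_pos.2 hc
    have hδw : infDist w E ≤ infDist z E + h := by
      have := infDist_le_infDist_add_dist (s := E) (x := w) (y := z)
      rwa [dist_comm, dist_eq_norm] at this
    rcases lt_or_ge (infDist z E) (2 * h) with hcase | hcase
    · have b1 : ‖u z‖ ≤ c⁻¹ * (2 * h ^ α) := (U1 z hz).trans
        (mul_le_mul_of_nonneg_left
          ((Real.rpow_le_rpow infDist_nonneg hcase.le h0.le).trans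
            (rpow_aux3 h0 h1 (by norm_num) hh.le)) hci.le)
      have b2 : ‖u w‖ ≤ c⁻¹ * (3 * h ^ α) := (U1 w hw).trans
        (mul_le_mul_of_nonneg_left
          ((Real.rpow_le_rpow infDist_nonneg (by linarith : infDist w E ≤ 3 * h) h0.le).trans
            (rpow_aux3 h0 h1 (by norm_num) hh.le)) hci.le)
      have hpα : 0 ≤ h ^ α := Real.rpow_nonneg hh.le _
      calc ‖u z - u w‖ ≤ ‖u z‖ + ‖u w‖ := norm_sub_le _ _
        _ ≤ c⁻¹ * (2 * h ^ α) + c⁻¹ * (3 * h ^ α) := add_le_add b1 b2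
        _ = (5 * c⁻¹) * h ^ α := by ring
        _ ≤ K * h ^ α := mul_le_mul_of_nonneg_right (by rw [hK]; have : 0 ≤ C * (c⁻¹ * c⁻¹) * 8 := by positivity
                                                        linarith) hpα
    · set δ := infDist z E with hδ
      have hδpos : 0 < δ := by linarith
      have hzE : z ∉ E := by
        intro hz'
        rw [hδ, infDist_zero_of_mem hz'] at hδpos
        exact lt_irrefl _ hδpos
      have hδz : δ ≤ infDist w E + h := by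
        have := infDist_le_infDist_add_dist (s := E) (x := z) (y := w)
        rwa [dist_eq_norm] at this
      have hwpos : 0 < infDist w E := by linarith
      have hwE : w ∉ E := by
        intro hw'
        rw [infDist_zero_of_mem hw'] at hwpos
        exact lt_irrefl _ hwpos
      have hGz : G α M p d z ≠ 0 := by
        intro h'
        have := (hG z hz hzE).1
        rw [h'] at this
        norm_num at this
      have hGw : G α M p d w ≠ 0 := by
        intro h'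
        have := (hG w hw hwE).1
        rw [h'] at this
        norm_num at this
      have e1 : u z - u w = (G α M p d w - G α M p d z) * (u z * u w) := by
        rw [unE z hzE, unE w hwE]
        field_simp
      have hδ1 : δ ≤ ‖1 - z‖ := by
        have := infDist_le_dist_of_mem (x := z) h1E
        rwa [dist_comm, dist_eq_norm] at this
      have h1z : 0 < ‖1 - z‖ := lt_of_lt_of_le hδpos hδ1
      have h1w : ‖1 - w‖ ≤ 2 * ‖1 - z‖ := by
        have : ‖1 - w‖ ≤ ‖1 - z‖ + h := by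
          calc ‖1 - w‖ = ‖(1 - z) + (z - w)‖ := by ring_nf
            _ ≤ ‖1 - z‖ + ‖z - w‖ := norm_add_le _ _
        linarith
      have hD1 := hDf z w hz hw hzE (by linarith)
      have nz : 0 ≤ ‖u z‖ := norm_nonneg _
      have nw : 0 ≤ ‖u w‖ := norm_nonneg _
      have bz1 : ‖u z‖ ≤ c⁻¹ * δ ^ α := U1 z hz
      have bz2 : ‖u z‖ ≤ c⁻¹ * ‖1 - z‖ := U2 z hz
      have bw1 : ‖u w‖ ≤ c⁻¹ * (2 * δ ^ α) := (U1 w hw).trans
        (mul_le_mul_of_nonneg_left
          ((Real.rpow_le_rpow infDist_nonneg (by linarith : infDist w E ≤ 2 * δ) h0.le).trans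
            (rpow_aux3 h0 h1 (by norm_num) hδpos.le)) hci.le)
      have bw2 : ‖u w‖ ≤ c⁻¹ * (2 * ‖1 - z‖) := (U2 w hw).trans
        (mul_le_mul_of_nonneg_left h1w hci.le)
      -- three terms
      have t1 : h * (1 / ‖1 - z‖ ^ 2) * (‖u z‖ * ‖u w‖) ≤ (c⁻¹ * c⁻¹) * 4 * h ^ α := by
        have q : ‖u z‖ * ‖u w‖ ≤ (c⁻¹ * ‖1 - z‖) * (c⁻¹ * (2 * ‖1 - z‖)) :=
          mul_le_mul bz2 bw2 nw (by positivity)
        calc h * (1 / ‖1 - z‖ ^ 2) * (‖u z‖ * ‖u w‖)
            ≤ h * (1 / ‖1 - z‖ ^ 2) * ((c⁻¹ * ‖1 - z‖) * (c⁻¹ * (2 * ‖1 - z‖))) :=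
              mul_le_mul_of_nonneg_left q (by positivity)
          _ = (c⁻¹ * c⁻¹) * 2 * h := by field_simp
          _ ≤ (c⁻¹ * c⁻¹) * 2 * (2 * h ^ α) :=
              mul_le_mul_of_nonneg_left (rpow_aux1 h0 h1 hh hh2) (by positivity)
          _ = (c⁻¹ * c⁻¹) * 4 * h ^ α := by ring
      have hα1 : δ ^ α / δ = δ ^ (α - 1) := by
        rw [Real.rpow_sub_one hδpos.ne']
      have haux : h * δ ^ (α - 1) ≤ h ^ α := rpow_aux2 h1 hh (by linarith)
      have t2 : h * (1 / (δ * ‖1 - z‖)) * (‖u z‖ * ‖u w‖) ≤ (c⁻¹ * c⁻¹) * 2 * h ^ α := by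
        have q : ‖u z‖ * ‖u w‖ ≤ (c⁻¹ * ‖1 - z‖) * (c⁻¹ * (2 * δ ^ α)) :=
          mul_le_mul bz2 bw1 nw (by positivity)
        calc h * (1 / (δ * ‖1 - z‖)) * (‖u z‖ * ‖u w‖)
            ≤ h * (1 / (δ * ‖1 - z‖)) * ((c⁻¹ * ‖1 - z‖) * (c⁻¹ * (2 * δ ^ α))) :=
              mul_le_mul_of_nonneg_left q (by positivity)
          _ = (c⁻¹ * c⁻¹) * 2 * (h * (δ ^ α / δ)) := by field_simp
          _ ≤ (c⁻¹ * c⁻¹) * 2 * h ^ α := by
              rw [hα1]
              exact mul_le_mul_of_nonneg_left haux (by positivity)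
      have t3 : h * (δ ^ (-1 - α)) * (‖u z‖ * ‖u w‖) ≤ (c⁻¹ * c⁻¹) * 2 * h ^ α := by
        have q : ‖u z‖ * ‖u w‖ ≤ (c⁻¹ * δ ^ α) * (c⁻¹ * (2 * δ ^ α)) :=
          mul_le_mul bz1 bw1 nw (by positivity)
        have e3 : δ ^ (-1 - α) * (δ ^ α * δ ^ α) = δ ^ (α - 1) := by
          rw [← Real.rpow_add hδpos, ← Real.rpow_add hδpos]
          congr 1; ring
        calc h * (δ ^ (-1 - α)) * (‖u z‖ * ‖u w‖)
            ≤ h * (δ ^ (-1 - α)) * ((c⁻¹ * δ ^ α) * (c⁻¹ * (2 * δ ^ α))) :=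
              mul_le_mul_of_nonneg_left q (by positivity)
          _ = (c⁻¹ * c⁻¹) * 2 * (h * (δ ^ (-1 - α) * (δ ^ α * δ ^ α))) := by ring
          _ ≤ (c⁻¹ * c⁻¹) * 2 * h ^ α := by
              rw [e3]
              exact mul_le_mul_of_nonneg_left haux (by positivity)
      have hpα : 0 ≤ h ^ α := Real.rpow_nonneg hh.le _
      calc ‖u z - u w‖ = ‖G α M p d z - G α M p d w‖ * (‖u z‖ * ‖u w‖) := by
            rw [e1, norm_mul, norm_mul, norm_sub_rev]
        _ ≤ (C * ‖z - w‖ * (1 / ‖1 - z‖ ^ 2 + 1 / (δ * ‖1 - z‖) + δ ^ (-1 - α))) *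
              (‖u z‖ * ‖u w‖) := mul_le_mul_of_nonneg_right hD1 (mul_nonneg nz nw)
        _ = C * (h * (1 / ‖1 - z‖ ^ 2) * (‖u z‖ * ‖u w‖) +
              h * (1 / (δ * ‖1 - z‖)) * (‖u z‖ * ‖u w‖) +
              h * (δ ^ (-1 - α)) * (‖u z‖ * ‖u w‖)) := by
            rw [← hhd]; ring
        _ ≤ C * ((c⁻¹ * c⁻¹) * 4 * h ^ α + (c⁻¹ * c⁻¹) * 2 * h ^ α + (c⁻¹ * c⁻¹) * 2 * h ^ α) :=
            mul_le_mul_of_nonneg_left (add_le_add (add_le_add t1 t2) t3) hC.le
        _ = (C * (c⁻¹ * c⁻¹) * 8) * h ^ α := by ring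
        _ ≤ K * h ^ α := mul_le_mul_of_nonneg_right (by rw [hK]; have : 0 ≤ 5 * c⁻¹ := by positivity
                                                        linarith) hpα
  -- continuity
  have hcont : ContinuousOn u (closedBall (0 : ℂ) 1) := by
    rw [Metric.continuousOn_iff]
    intro z hz ε hε
    rw [mem_closedBall_zero_iff] at hz
    refine ⟨(ε / K) ^ (1 / α), Real.rpow_pos_of_pos (div_pos hε hKpos) _, ?_⟩
    intro w hw hwz
    rw [mem_closedBall_zero_iff] at hw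
    rw [dist_eq_norm] at hwz ⊢
    have h2 : ‖w - z‖ ^ α < ε / K := by
      have := Real.rpow_lt_rpow (norm_nonneg _) hwz h0
      rwa [← Real.rpow_mul (div_pos hε hKpos).le, one_div_mul_cancel h0.ne', Real.rpow_one] at this
    calc ‖u w - u z‖ ≤ K * ‖w - z‖ ^ α := hH w z hw hz
      _ < K * (ε / K) := mul_lt_mul_of_pos_left h2 hKpos
      _ = ε := by field_simp
  refine ⟨hcl, hEs, fun z => 1 - u z, ⟨?_, ?_, ?_⟩, ?_, ?_⟩
  · -- differentiable in the ball
    have hdu : DifferentiableOn ℂ u (ball (0 : ℂ) 1) := by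
      have hinv : DifferentiableOn ℂ (fun z => (G α M p d z)⁻¹) (ball (0 : ℂ) 1) := by
        refine hAn.inv ?_
        intro z hz h'
        rw [mem_ball_zero_iff] at hz
        have hzE : z ∉ E := by
          intro h2
          have := hEs h2
          rw [mem_sphere_zero_iff_norm] at this
          linarith
        have := (hG z hz.le hzE).1
        rw [h'] at this
        norm_num at this
      refine hinv.congr ?_
      intro z hz
      rw [mem_ball_zero_iff] at hz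
      have hzE : z ∉ E := by
        intro h2
        have := hEs h2
        rw [mem_sphere_zero_iff_norm] at this
        linarith
      exact unE z hzE
    exact (differentiableOn_const (1 : ℂ)).sub hdu
  · exact continuousOn_const.sub hcont
  · refine ⟨K, ?_⟩
    intro z hz w hw
    rw [mem_sphere_zero_iff_norm] at hz hw
    have := hH w z hw.le hz.le
    rw [norm_sub_rev w z] at this
    calc ‖(1 - u z) - (1 - u w)‖ = ‖u w - u z‖ := by ring_nf
      _ ≤ K * ‖z - w‖ ^ α := this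
  · intro ζ hζ
    show 1 - u ζ = 1
    rw [uE ζ hζ, sub_zero]
  · intro ζ hζ
    show ‖1 - u ζ‖ < 1
    rw [unE ζ hζ.2]
    have hn := hζ.1
    rw [mem_sphere_zero_iff_norm] at hn
    exact norm_one_sub_inv_lt (hG ζ hn.le hζ.2).1

end Pool.Agent.W728.PK
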