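import Pool.Agent.W728.PK.Defs

/-!
# Project PK: statements of the pieces
-/

namespace Pool.Agent.W728.PK

open Complex Metric Set Filter Topology MeasureTheory
open scoped Real ComplexConjugate

/-! ### chord estimates (proved here, for everybody) -/

theorem norm_exp_sub_exp (x y : ℝ) :
    ‖Complex.exp ((x : ℂ) * I) - Complex.exp ((y : ℂ) * I)‖ = ‖2 * Real.sin ((x - y) / 2)‖ := by
  have h : Complex.exp ((x : ℂ) * I) - Complex.exp ((y : ℂ) * I)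
      = Complex.exp ((y : ℂ) * I) * (Complex.exp (I * ((x - y : ℝ) : ℂ)) - 1) := by
    rw [mul_sub, mul_one, ← Complex.exp_add]
    congr 2
    push_cast
    ring
  rw [h, norm_mul, Complex.norm_exp_ofReal_mul_I, one_mul]
  exact Complex.norm_exp_I_mul_ofReal_sub_one (x - y)

theorem chord_le (x y : ℝ) :
    ‖Complex.exp ((x : ℂ) * I) - Complex.exp ((y : ℂ) * I)‖ ≤ |x - y| := by
  rw [norm_exp_sub_exp, norm_mul, Real.norm_eq_abs, Real.norm_eq_abs]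
  have := Real.abs_sin_le_abs (x := (x - y) / 2)
  rw [abs_div, abs_two] at this
  rw [abs_two]
  linarith

theorem le_chord (x y : ℝ) (h : |x - y| ≤ π) :
    2 / π * |x - y| ≤ ‖Complex.exp ((x : ℂ) * I) - Complex.exp ((y : ℂ) * I)‖ := by
  rw [norm_exp_sub_exp, norm_mul, Real.norm_eq_abs, Real.norm_eq_abs, abs_two]
  have h2 : |Real.sin ((x - y) / 2)| = Real.sin (|x - y| / 2) := by
    have h3 : |(x - y) / 2| = |x - y| / 2 := by rw [abs_div, abs_two]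
    rw [← h3, Real.abs_sin_eq_sin_abs_of_abs_le_pi]
    rw [h3]
    linarith [abs_nonneg (x - y)]
  rw [h2]
  have h4 := Real.mul_le_sin (x := |x - y| / 2) (by positivity) (by linarith)
  linarith

/-! ### the variable `w = 1 - z \bar p` -/

theorem norm_w {p : ℂ} (hp : ‖p‖ = 1) (z : ℂ) : ‖1 - z * conj p‖ = ‖z - p‖ := by
  have h1 : (1 : ℂ) = p * conj p := by
    rw [Complex.mul_conj, Complex.normSq_eq_norm_sq, hp]; norm_num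
  have h : 1 - z * conj p = (p - z) * conj p := by
    rw [sub_mul, ← h1]
  rw [h, norm_mul, RCLike.norm_conj, hp, mul_one, norm_sub_rev]

theorem re_w {p : ℂ} (hp : ‖p‖ = 1) {z : ℂ} (hz : ‖z‖ ≤ 1) : 0 ≤ (1 - z * conj p).re := by
  have h : (z * conj p).re ≤ 1 := by
    refine (Complex.re_le_norm _).trans ?_
    rw [norm_mul, RCLike.norm_conj, hp, mul_one]; exact hz
  rw [Complex.sub_re, Complex.one_re]; linarith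

theorem w_ne {p : ℂ} (hp : ‖p‖ = 1) {z : ℂ} (hz : z ≠ p) : 1 - z * conj p ≠ 0 := by
  rw [← norm_ne_zero_iff, norm_w hp, norm_ne_zero_iff]
  exact sub_ne_zero.2 hz

/-! ### facts about `Φ` (subtask PHI) -/

def PhiBound_stmt : Prop :=
  ∀ α d : ℝ, 0 < α → α < 1 → 0 < d → ∀ w : ℂ, w ≠ 0 → 0 ≤ w.re →
    ‖Phi α d w‖ ≤ d ^ (1 - α) / ‖w‖ ∧ ‖Phi α d w‖ ≤ ‖w‖ ^ (-α) ∧ 0 ≤ (Phi α d w).re

def PhiRe_stmt : Prop :=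
  ∀ α : ℝ, 0 < α → α < 1 → ∃ c : ℝ, 0 < c ∧ ∀ d : ℝ, 0 < d → ∀ w : ℂ, w ≠ 0 → 0 ≤ w.re →
    ‖w‖ ≤ d → c * ‖w‖ ^ (-α) ≤ (Phi α d w).re

def PhiDiff_stmt : Prop :=
  ∀ α d : ℝ, 0 < α → α < 1 → 0 < d → ∀ w w' : ℂ, w ≠ 0 → 0 ≤ w.re → 0 ≤ w'.re →
    ‖w - w'‖ ≤ ‖w‖ / 2 → ‖Phi α d w - Phi α d w'‖ ≤ 4 * ‖w - w'‖ * ‖Phi α d w‖ / ‖w‖

def PhiAn_stmt : Prop :=
  ∀ α d : ℝ, 0 < α → α < 1 → 0 < d → ∀ w : ℂ, w ≠ 0 → 0 ≤ w.re → DifferentiableAt ℂ (Phi α d) w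

/-! ### the function `G` -/

/-- subtask LB -/
def LB_stmt : Prop :=
  ∀ α : ℝ, 0 < α → α < 1 → ∀ (ι : Type) (p : ι → ℂ) (d : ι → ℝ), Fam α p d →
    ∃ M : ℝ, 1 < M ∧ ∃ c : ℝ, 0 < c ∧ ∀ z : ℂ, ‖z‖ ≤ 1 → z ∉ ES p →
      1 / 2 < (G α M p d z).re ∧ c / ‖1 - z‖ ≤ ‖G α M p d z‖ ∧
        c * infDist z (ES p) ^ (-α) ≤ ‖G α M p d z‖

/-- subtask DIFF -/
def DIFF_stmt : Prop :=
  ∀ α : ℝ, 0 < α → α < 1 → ∀ (ι : Type) (p : ι → ℂ) (d : ι → ℝ), Fam α p d → ∀ M : ℝ, 0 < M →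
    ∃ C : ℝ, 0 < C ∧ ∀ z w : ℂ, ‖z‖ ≤ 1 → ‖w‖ ≤ 1 → z ∉ ES p → ‖z - w‖ ≤ infDist z (ES p) / 2 →
      ‖G α M p d z - G α M p d w‖ ≤ C * ‖z - w‖ *
        (1 / ‖1 - z‖ ^ 2 + 1 / (infDist z (ES p) * ‖1 - z‖) + infDist z (ES p) ^ (-1 - α))

/-- subtask AN -/
def AN_stmt : Prop :=
  ∀ α : ℝ, 0 < α → α < 1 → ∀ (ι : Type) (p : ι → ℂ) (d : ι → ℝ), Fam α p d → ∀ M : ℝ,
    DifferentiableOn ℂ (G α M p d) (ball (0 : ℂ) 1)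

/-- `E` is closed (subtask AN). -/
def CL_stmt : Prop :=
  ∀ α : ℝ, 0 < α → α < 1 → ∀ (ι : Type) (p : ι → ℂ) (d : ι → ℝ), Fam α p d → IsClosed (ES p)

/-- PEAK (helper728) -/
def PEAK_stmt : Prop :=
  ∀ α : ℝ, 0 < α → α < 1 → ∀ (ι : Type) (p : ι → ℂ) (d : ι → ℝ), Fam α p d → IsPeakSet α (ES p)

/-! ### Gevrey functions -/

/-- subtask A1 -/
def A1_stmt : Prop :=
  ∀ α : ℝ, 0 < α → ∀ (f : ℂ → ℂ) (C : ℝ), DifferentiableOn ℂ f (ball (0 : ℂ) 1) →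
    (∀ n : ℕ, ∀ z ∈ ball (0 : ℂ) 1,
      ‖iteratedDeriv n f z‖ ≤ C ^ (n + 1) * ((n.factorial : ℝ)) ^ (1 + 1 / α)) →
    ∀ ζ ∈ sphere (0 : ℂ) 1, (∀ n : ℕ, Tendsto (iteratedDeriv n f) (𝓝[ball (0 : ℂ) 1] ζ) (𝓝 0)) →
    ∀ n : ℕ, ∀ z ∈ ball (0 : ℂ) 1,
      ‖f z‖ ≤ C ^ (n + 1) * ((n.factorial : ℝ)) ^ (1 / α) * ‖z - ζ‖ ^ n

/-- subtask A2 -/
def A2_stmt : Prop :=
  ∀ α : ℝ, 0 < α → ∀ E : Set ℂ, E ⊆ sphere (0 : ℂ) 1 → E.Nonempty → ∀ (f : ℂ → ℂ) (C : ℝ),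
    (∀ ζ ∈ E, ∀ n : ℕ, ∀ z ∈ ball (0 : ℂ) 1,
      ‖f z‖ ≤ C ^ (n + 1) * ((n.factorial : ℝ)) ^ (1 / α) * ‖z - ζ‖ ^ n) →
    ∃ A : ℝ, 1 ≤ A ∧ ∃ c : ℝ, 0 < c ∧ ∀ z ∈ ball (0 : ℂ) 1,
      ‖f z‖ ≤ A * Real.exp (-(c * infDist z E ^ (-α)))

/-- subtask JEN -/
def JEN_stmt : Prop :=
  ∀ f : ℂ → ℂ, DifferentiableOn ℂ f (ball (0 : ℂ) 1) → (∃ z ∈ ball (0 : ℂ) 1, f z ≠ 0) →
    ∃ K : ℝ, ∀ r : ℝ, 1 / 2 ≤ r → r < 1 →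
      CircleIntegrable (fun z => Real.log ‖f z‖) 0 r ∧
      -K ≤ Real.circleAverage (fun z => Real.log ‖f z‖) 0 r

/-- subtask FAT -/
def FAT_stmt : Prop :=
  ∀ α : ℝ, 0 < α → ∀ E : Set ℂ, E ⊆ sphere (0 : ℂ) 1 → Div α E → ∀ f : ℂ → ℂ,
    DifferentiableOn ℂ f (ball (0 : ℂ) 1) → (∃ z ∈ ball (0 : ℂ) 1, f z ≠ 0) →
    ∀ A c : ℝ, 1 ≤ A → 0 < c →
    ¬ (∀ z ∈ ball (0 : ℂ) 1, ‖f z‖ ≤ A * Real.exp (-(c * infDist z E ^ (-α))))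

/-! ### the explicit family -/

/-- subtask EXB -/
def EXB_stmt : Prop :=
  ∀ α : ℝ, 0 < α → α < 1 →
    (∀ i, ‖pp α i‖ = 1) ∧ (∀ i, 0 < dd α i) ∧ (∀ i, 2 * dd α i ≤ ‖1 - pp α i‖) ∧
    (∀ i k, i ≠ k → dd α i + dd α k ≤ ‖pp α i - pp α k‖) ∧
    (∃ C : ℝ, 0 < C ∧ ∀ i, ‖1 - pp α i‖ ≤ C * dd α i ^ α ∧ dd α i ^ α ≤ C * ‖1 - pp α i‖)

/-- subtask EXS -/
def EXS_stmt : Prop :=
  ∀ α : ℝ, 0 < α → α < 1 →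
    (∀ j, 1 ≤ NN α j) ∧
    Summable (fun j => (NN α j : ℝ) * (lev j ^ (1 / α) / 64) ^ (1 - α)) ∧
    ∃ C : ℝ, 0 < C ∧
      ∀ j, (NN α j : ℝ) * (lev j ^ (1 / α) / 64) ^ (1 - α) * (1 + Real.log (NN α j)) ≤ C

/-- subtask EXK: the two remaining fields of `Fam α (pp α) (dd α)`. -/
def EXK_stmt : Prop :=
  ∀ α : ℝ, 0 < α → α < 1 →
    Summable (fun i => dd α i ^ (1 - α)) ∧
    ∃ C : ℝ, 0 < C ∧ ∀ z : ℂ, ‖z‖ ≤ 1 → z ≠ 1 → ∀ s : Finset (Idx α),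
      (∀ i ∈ s, dd α i ≤ ‖z - pp α i‖) → ∑ i ∈ s, dd α i ^ (1 - α) / ‖z - pp α i‖ ≤ C / ‖1 - z‖

/-- subtask EXD -/
def EXD_stmt : Prop := ∀ α : ℝ, 0 < α → α < 1 → Div α (ES (pp α))

/-- subtask ONE: the case `α = 1`. -/
def ONE_stmt : Prop := IsPeakSet 1 {1} ∧ Div 1 {1}

end Pool.Agent.W728.PK
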